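import Pool.Agent.Helper14.LK.St
import Pool.Agent.Helper14.LK.Basic

/-! # Project LK (MP_58b586_gt), module KC: properties of the smoothing operator -/

set_option autoImplicit false

open scoped ContDiff Topology
open MeasureTheory Set Filter

namespace Pool.Agent.Helper78.LK

open Pool.Agent.Helper14.LK

variable {n : ℕ} {G : Type} [NormedAddCommGroup G] [NormedSpace ℝ G]

/-! ### kernels -/

private def Ker (ψ : KK n → ℝ) : Prop := ContDiff ℝ ∞ ψ ∧ ∀ z, 1 ≤ ‖z‖ → ψ z = 0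

private theorem rhoKer : Ker (rho (n := n)) := by
  refine ⟨(bmp n).contDiff_normed, fun z hz => ?_⟩
  have h1 : z ∉ Function.support ((bmp n).normed volume) := by
    rw [ContDiffBump.support_normed_eq]
    intro h2
    rw [Metric.mem_ball, dist_zero_right] at h2
    have h3 : (bmp n).rOut = 1 := rfl
    linarith
  exact Function.notMem_support.1 h1

private theorem rhoInt : ∫ z, rho (n := n) z = 1 := (bmp n).integral_normed

private theorem rhoNeg (z : KK n) : rho (-z) = rho z := (bmp n).normed_neg z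

private theorem kerInt {ψ : KK n → ℝ} (hc : Continuous ψ) (h0 : ∀ z, 1 ≤ ‖z‖ → ψ z = 0) {f : KK n → G}
    (hf : Continuous f) : Integrable (fun z => ψ z • f z) := by
  refine (hc.smul hf).integrable_of_hasCompactSupport ?_
  refine HasCompactSupport.intro (isCompact_closedBall (0 : KK n) 1) fun z hz => ?_
  rw [Metric.mem_closedBall, dist_zero_right, not_le] at hz
  show ψ z • f z = 0
  rw [h0 z hz.le, zero_smul]

private theorem kerInt' {ψ : KK n → ℝ} (hc : Continuous ψ) (h0 : ∀ z, 1 ≤ ‖z‖ → ψ z = 0) :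
    Integrable ψ := by
  have h1 := kerInt hc h0 (f := fun _ => (1 : ℝ)) continuous_const
  simpa using h1

private theorem actCont (r : ℝ) (y : EE n) : Continuous fun z : KK n => act z r y := by
  unfold act
  fun_prop

private theorem actNeg (z : KK n) (r : ℝ) (y : EE n) : act (-z) r y = - act z r y := by
  unfold act
  simp only [Prod.fst_neg, Prod.snd_neg, Pi.neg_apply, smul_neg, Finset.sum_neg_distrib, neg_add]

private theorem actZero (z : KK n) : act z 0 (0 : EE n) = 0 := by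
  unfold act
  simp

private theorem haarKK (n : ℕ) : (volume : Measure (KK n)).IsAddHaarMeasure :=
  MeasureTheory.Measure.prod.instIsAddHaarMeasure (volume : Measure (EE n))
    (volume : Measure (Fin n → EE n))

private theorem negKK (n : ℕ) : (volume : Measure (KK n)).IsNegInvariant := by
  have h1 := haarKK n
  have h2 : IsLocallyFiniteMeasure (volume : Measure (KK n)) := inferInstance
  have h3 : (volume : Measure (KK n)).Regular :=
    Measure.Regular.of_sigmaCompactSpace_of_isLocallyFiniteMeasure _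
  exact Measure.IsAddHaarMeasure.isNegInvariant_of_regular _

private theorem oddInt {f : KK n → G} (hf : ∀ z, f (-z) = - f z) : ∫ z, rho z • f z = 0 := by
  have hinv := negKK n
  have h1 : ∫ z : KK n, rho (-z) • f (-z) = ∫ z, rho z • f z :=
    integral_neg_eq_self (fun z => rho z • f z) volume
  have h2 : ∫ z : KK n, rho (-z) • f (-z) = - ∫ z, rho z • f z := by
    rw [← integral_neg]
    congr 1
    ext z
    rw [rhoNeg, hf, smul_neg]
  have h3 : (2 : ℝ) • ∫ z : KK n, rho z • f z = 0 := by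
    rw [two_smul]
    nth_rewrite 1 [← h1]
    rw [h2]
    exact neg_add_cancel _
  exact (smul_eq_zero.1 h3).resolve_left (by norm_num)

private theorem kerFd {ψ : KK n → ℝ} (hψ : Ker ψ) (z : KK n) (hz : 1 ≤ ‖z‖) : fderiv ℝ ψ z = 0 := by
  have hcl : IsClosed {z : KK n | fderiv ℝ ψ z = 0} :=
    isClosed_eq (hψ.1.continuous_fderiv (by simp)) continuous_const
  have hsub : (Metric.closedBall (0 : KK n) 1)ᶜ ⊆ {z : KK n | fderiv ℝ ψ z = 0} := by
    intro w hw
    have hop : IsOpen (Metric.closedBall (0 : KK n) 1)ᶜ := Metric.isClosed_closedBall.isOpen_compl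
    have h1 : ψ =ᶠ[𝓝 w] fun _ => 0 := by
      filter_upwards [hop.mem_nhds hw] with v hv
      rw [mem_compl_iff, Metric.mem_closedBall, dist_zero_right, not_le] at hv
      exact hψ.2 v hv.le
    show fderiv ℝ ψ w = 0
    rw [h1.fderiv_eq]
    simp
  have h2 : closure (Metric.closedBall (0 : KK n) 1)ᶜ ⊆ {z : KK n | fderiv ℝ ψ z = 0} :=
    hcl.closure_subset_iff.2 hsub
  apply h2
  rw [closure_compl, interior_closedBall _ (by norm_num), mem_compl_iff, Metric.mem_ball, dist_zero_right,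
    not_lt]
  exact hz

private theorem kerDir {ψ : KK n → ℝ} (hψ : Ker ψ) (N : KK n) : Ker fun z => fderiv ℝ ψ z N := by
  refine ⟨?_, fun z hz => by
    show fderiv ℝ ψ z N = 0
    rw [kerFd hψ z hz]
    rfl⟩
  have h1 : ContDiff ℝ ∞ (fderiv ℝ ψ) := hψ.1.fderiv_right (by simp)
  exact h1.clm_apply contDiff_const

private theorem kerMul {ψ : KK n → ℝ} (hψ : Ker ψ) (j i : Fin n) : Ker fun z => ψ z * z.2 j i := by
  refine ⟨hψ.1.mul ?_, fun z hz => by
    show ψ z * z.2 j i = 0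
    rw [hψ.2 z hz, zero_mul]⟩
  have h1 : ContDiff ℝ ∞ fun z : KK n => z.2 j := by fun_prop
  exact (contDiff_euclidean.1 h1) i

/-! ### the averages -/

private theorem smoAdd {ψ : KK n → ℝ} (hψ : Ker ψ) {g h : EE n → G} (hg : Continuous g) (hh : Continuous h)
    (r : ℝ) (x y : EE n) : smo ψ (fun x => g x + h x) r x y = smo ψ g r x y + smo ψ h r x y := by
  unfold smo
  simp only [smul_add]
  exact integral_add
    (kerInt hψ.1.continuous hψ.2 (hg.comp (continuous_const.add (actCont r y))))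
    (kerInt hψ.1.continuous hψ.2 (hh.comp (continuous_const.add (actCont r y))))

private theorem smoApply [CompleteSpace G] {ψ : KK n → ℝ} (hψ : Ker ψ) {L : EE n → (EE n →L[ℝ] G)}
    (hL : Continuous L) (r : ℝ) (x y v : EE n) : smo ψ (fun x' => L x' v) r x y = smo ψ L r x y v := by
  have h1 : Integrable fun z : KK n => ψ z • L (x + act z r y) :=
    kerInt hψ.1.continuous hψ.2 (hL.comp (continuous_const.add (actCont r y)))
  exact (ContinuousLinearMap.integral_apply h1 v).symm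

private theorem smoZero (ψ : KK n → ℝ) (g : EE n → G) [CompleteSpace G] (x : EE n) :
    smo ψ g 0 x 0 = (∫ z, ψ z) • g x := by
  unfold smo
  simp only [actZero, add_zero]
  exact integral_smul_const ψ (g x)

private theorem smoAff [CompleteSpace G] (b : G) (T : EE n →L[ℝ] G) (r : ℝ) (x y : EE n) :
    smo rho (fun x => b + T x) r x y = b + T x := by
  unfold smo
  have e : ∀ z : KK n, rho z • (b + T (x + act z r y)) = rho z • (b + T x) + rho z • T (act z r y) := by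
    intro z
    rw [← smul_add, map_add, add_assoc]
  have i1 : Integrable fun z : KK n => rho z • (b + T x) :=
    kerInt rhoKer.1.continuous rhoKer.2 continuous_const
  have i2 : Integrable fun z : KK n => rho z • T (act z r y) :=
    kerInt rhoKer.1.continuous rhoKer.2 (T.continuous.comp (actCont r y))
  simp only [e]
  rw [integral_add i1 i2, integral_smul_const, rhoInt, one_smul, oddInt, add_zero]
  intro z
  rw [actNeg, map_neg]

private theorem smoCst [CompleteSpace G] (b : G) (r : ℝ) (x y : EE n) :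
    smo rho (fun _ => b) r x y = b := by
  unfold smo
  rw [integral_smul_const, rhoInt, one_smul]

private theorem actNorm {z : KK n} (hz : ‖z‖ ≤ 1) {r s : ℝ} {y : EE n} (hs : 0 < s)
    (h : r ^ 2 + ‖y‖ ^ 2 = s ^ 2) : ‖act z r y‖ ≤ ((n : ℝ) + 1) * s := by
  have hr : |r| ≤ s := abs_le_of_sq_le_sq (by nlinarith [sq_nonneg ‖y‖]) hs.le |> fun h => h
  have hy : ‖y‖ ≤ s := le_of_sq_le_sq (by nlinarith [sq_nonneg r]) hs.le
  have h1 : ‖z.1‖ ≤ 1 := (norm_fst_le z).trans hz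
  have h2 : ∀ j, ‖z.2 j‖ ≤ 1 := fun j => (norm_le_pi_norm z.2 j).trans ((norm_snd_le z).trans hz)
  unfold act
  calc ‖r • z.1 + ∑ j, y j • z.2 j‖ ≤ ‖r • z.1‖ + ‖∑ j, y j • z.2 j‖ := norm_add_le _ _
    _ ≤ s + ∑ j : Fin n, s := by
        refine add_le_add ?_ ((norm_sum_le _ _).trans (Finset.sum_le_sum fun j _ => ?_))
        · rw [norm_smul, Real.norm_eq_abs]
          calc |r| * ‖z.1‖ ≤ s * 1 := mul_le_mul hr h1 (norm_nonneg _) hs.le
            _ = s := mul_one s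
        · rw [norm_smul]
          have h3 : ‖y j‖ ≤ s := (PiLp.norm_apply_le y j).trans hy
          calc ‖y j‖ * ‖z.2 j‖ ≤ s * 1 := mul_le_mul h3 (h2 j) (norm_nonneg _) hs.le
            _ = s := mul_one s
    _ = ((n : ℝ) + 1) * s := by
        rw [Finset.sum_const, Finset.card_univ, Fintype.card_fin, nsmul_eq_mul]
        ring

private theorem smoBd {ψ : KK n → ℝ} {w : KK n → ℝ} (hw : Integrable w) {B : ℝ} {g : EE n → G} {r s : ℝ}
    {x y : EE n} (hs : 0 < s) (h : r ^ 2 + ‖y‖ ^ 2 = s ^ 2) (h0 : ∀ z, 1 ≤ ‖z‖ → ψ z = 0)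
    (hψ : ∀ z, |ψ z| ≤ w z) (hB : ∀ x', ‖x' - x‖ ≤ ((n : ℝ) + 1) * s → ‖g x'‖ ≤ B) :
    ‖smo ψ g r x y‖ ≤ (∫ z, w z) * B := by
  have hB0 : 0 ≤ B := (norm_nonneg _).trans (hB x (by rw [sub_self, norm_zero]; positivity))
  unfold smo
  rw [← integral_mul_const]
  refine norm_integral_le_of_norm_le (hw.mul_const B) (Eventually.of_forall fun z => ?_)
  by_cases hz : 1 ≤ ‖z‖
  · rw [h0 z hz, zero_smul, norm_zero]
    exact mul_nonneg ((abs_nonneg _).trans (hψ z)) hB0
  · rw [norm_smul, Real.norm_eq_abs]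
    refine mul_le_mul (hψ z) (hB _ ?_) (norm_nonneg _) ((abs_nonneg _).trans (hψ z))
    rw [add_sub_cancel_left]
    exact actNorm (not_le.1 hz).le hs h

/-- the vector `N u` -/
private noncomputable def NN (r s : ℝ) (y u : EE n) : KK n := ((r / s ^ 2) • u, fun j => (y j / s ^ 2) • u)

private theorem NNle {r s : ℝ} {y : EE n} (hs : 0 < s) (h : r ^ 2 + ‖y‖ ^ 2 = s ^ 2) (u : EE n) :
    ‖NN r s y u‖ ≤ ‖u‖ / s := by
  have hr : |r| ≤ s := abs_le_of_sq_le_sq (by nlinarith [sq_nonneg ‖y‖]) hs.le |> fun h => h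
  have hy : ‖y‖ ≤ s := le_of_sq_le_sq (by nlinarith [sq_nonneg r]) hs.le
  have key : ∀ t : ℝ, |t| ≤ s → ‖(t / s ^ 2) • u‖ ≤ ‖u‖ / s := by
    intro t ht
    rw [norm_smul, Real.norm_eq_abs, abs_div, abs_of_pos (show 0 < s ^ 2 by positivity)]
    rw [div_mul_eq_mul_div, div_le_div_iff₀ (by positivity) hs]
    nlinarith [mul_le_mul_of_nonneg_right ht (mul_nonneg (norm_nonneg u) hs.le)]
  unfold NN
  rw [Prod.norm_def]
  refine max_le (key r hr) ?_
  rw [pi_norm_le_iff_of_nonneg (by positivity)]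
  intro j
  exact key _ ((PiLp.norm_apply_le y j).trans hy)

private noncomputable def Aψ (ψ : KK n → ℝ) : ℝ :=
  (∫ z, |ψ z|) + (∫ z, ‖fderiv ℝ ψ z‖) + ∫ z, ‖fderiv ℝ (fderiv ℝ ψ) z‖

private theorem Anonneg (ψ : KK n → ℝ) : 0 ≤ Aψ ψ := by
  unfold Aψ
  have h1 : 0 ≤ ∫ z, |ψ z| := integral_nonneg fun z => abs_nonneg _
  have h2 : 0 ≤ ∫ z, ‖fderiv ℝ ψ z‖ := integral_nonneg fun z => norm_nonneg (fderiv ℝ ψ z)
  have h3 : 0 ≤ ∫ z, ‖fderiv ℝ (fderiv ℝ ψ) z‖ :=
    integral_nonneg fun z => norm_nonneg (fderiv ℝ (fderiv ℝ ψ) z)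
  linarith

private theorem kerC1 {ψ : KK n → ℝ} (hψ : Ker ψ) : ContDiff ℝ ∞ (fderiv ℝ ψ) :=
  hψ.1.fderiv_right (by simp)

private theorem intFd {ψ : KK n → ℝ} (hψ : Ker ψ) : Integrable fun z => ‖fderiv ℝ ψ z‖ :=
  kerInt' (hψ.1.continuous_fderiv (by simp)).norm fun z hz => by rw [kerFd hψ z hz, norm_zero]

private theorem kerFd2 {ψ : KK n → ℝ} (hψ : Ker ψ) (z : KK n) (hz : 1 ≤ ‖z‖) :
    fderiv ℝ (fderiv ℝ ψ) z = 0 := by
  refine ContinuousLinearMap.ext fun N => ContinuousLinearMap.ext fun M => ?_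
  have h1 := kerFd (kerDir hψ M) z hz
  have hd : DifferentiableAt ℝ (fderiv ℝ ψ) z := (kerC1 hψ).differentiable (by simp) z
  have h2 : fderiv ℝ (fun z => fderiv ℝ ψ z M) z N = fderiv ℝ (fderiv ℝ ψ) z N M := by
    rw [fderiv_clm_apply hd (differentiableAt_const M)]
    simp
  rw [← h2, h1]
  rfl

private theorem intFd2 {ψ : KK n → ℝ} (hψ : Ker ψ) : Integrable fun z => ‖fderiv ℝ (fderiv ℝ ψ) z‖ :=
  kerInt' ((kerC1 hψ).continuous_fderiv (by simp)).norm fun z hz => by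
    rw [kerFd2 hψ z hz]
    exact norm_zero (E := KK n →L[ℝ] KK n →L[ℝ] ℝ)

section bounds

variable [FiniteDimensional ℝ G] {ψ : KK n → ℝ} {g : EE n → G} {r s B : ℝ} {x y : EE n}

omit [FiniteDimensional ℝ G] in
private theorem bd0 (hψ : Ker ψ) (hs : 0 < s) (h : r ^ 2 + ‖y‖ ^ 2 = s ^ 2)
    (hB : ∀ x', ‖x' - x‖ ≤ ((n : ℝ) + 1) * s → ‖g x'‖ ≤ B) : ‖smo ψ g r x y‖ ≤ Aψ ψ * B := by
  have hB0 : 0 ≤ B := (norm_nonneg _).trans (hB x (by rw [sub_self, norm_zero]; positivity))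
  refine (smoBd (kerInt' hψ.1.continuous hψ.2).abs hs h hψ.2 (fun z => le_rfl) hB).trans ?_
  refine mul_le_mul_of_nonneg_right ?_ hB0
  unfold Aψ
  have h2 : 0 ≤ ∫ z, ‖fderiv ℝ ψ z‖ := integral_nonneg fun z => norm_nonneg (fderiv ℝ ψ z)
  have h3 : 0 ≤ ∫ z, ‖fderiv ℝ (fderiv ℝ ψ) z‖ :=
    integral_nonneg fun z => norm_nonneg (fderiv ℝ (fderiv ℝ ψ) z)
  linarith

private theorem bd1 (hKB : StKB) (hψ : Ker ψ) (hg : ContDiff ℝ ∞ g) (hs : 0 < s)
    (h : r ^ 2 + ‖y‖ ^ 2 = s ^ 2) (hB : ∀ x', ‖x' - x‖ ≤ ((n : ℝ) + 1) * s → ‖g x'‖ ≤ B) (u : EE n) :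
    ‖smo ψ (fun x' => fderiv ℝ g x' u) r x y‖ ≤ Aψ ψ * B * (‖u‖ / s) := by
  have hB0 : 0 ≤ B := (norm_nonneg _).trans (hB x (by rw [sub_self, norm_zero]; positivity))
  rw [hKB n G ψ g hψ.1 hψ.2 hg r s x y u hs h, norm_neg]
  have h1 := smoBd (ψ := fun z => fderiv ℝ ψ z (NN r s y u)) (g := g) ((intFd hψ).mul_const ‖NN r s y u‖) hs h
    (kerDir hψ _).2 (fun z => (fderiv ℝ ψ z).le_opNorm (NN r s y u)) hB
  refine h1.trans ?_
  rw [integral_mul_const]
  have h2 := NNle (y := y) hs h u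
  have h3 : 0 ≤ ∫ z, ‖fderiv ℝ ψ z‖ := integral_nonneg fun z => norm_nonneg (fderiv ℝ ψ z)
  have h4 : ∫ z, ‖fderiv ℝ ψ z‖ ≤ Aψ ψ := by
    unfold Aψ
    have h5 : 0 ≤ ∫ z, |ψ z| := integral_nonneg fun z => abs_nonneg _
    have h6 : 0 ≤ ∫ z, ‖fderiv ℝ (fderiv ℝ ψ) z‖ :=
      integral_nonneg fun z => norm_nonneg (fderiv ℝ (fderiv ℝ ψ) z)
    linarith
  have hA := Anonneg ψ
  calc (∫ z, ‖fderiv ℝ ψ z‖) * ‖NN r s y u‖ * B ≤ Aψ ψ * (‖u‖ / s) * B := by gcongr
    _ = Aψ ψ * B * (‖u‖ / s) := by ring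

private theorem bd2 (hKB : StKB) (hψ : Ker ψ) (hg : ContDiff ℝ ∞ g) (hs : 0 < s)
    (h : r ^ 2 + ‖y‖ ^ 2 = s ^ 2) (hB : ∀ x', ‖x' - x‖ ≤ ((n : ℝ) + 1) * s → ‖g x'‖ ≤ B) (u : EE n) :
    ‖smo ψ (fun x' => fderiv ℝ (fderiv ℝ g) x' u y) r x y‖ ≤ Aψ ψ * B * (‖u‖ / s) := by
  have hB0 : 0 ≤ B := (norm_nonneg _).trans (hB x (by rw [sub_self, norm_zero]; positivity))
  have hg1 : ContDiff ℝ ∞ (fderiv ℝ g) := hg.fderiv_right (by simp)
  have hgy : ContDiff ℝ ∞ fun x' => fderiv ℝ g x' y := hg1.clm_apply contDiff_const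
  have e : (fun x' => fderiv ℝ (fderiv ℝ g) x' u y) =
      fun x' => fderiv ℝ (fun x'' => fderiv ℝ g x'' y) x' u := by
    ext1 x'
    rw [fderiv_clm_apply (hg1.differentiable (by simp)).differentiableAt (differentiableAt_const y)]
    simp
  have hk1 := kerDir hψ (NN r s y u)
  rw [e, hKB n G ψ _ hψ.1 hψ.2 hgy r s x y u hs h, norm_neg]
  have e2 := hKB n G (fun z => fderiv ℝ ψ z (NN r s y u)) g hk1.1 hk1.2 hg r s x y y hs h
  show ‖smo (fun z => fderiv ℝ ψ z (NN r s y u)) (fun x' => fderiv ℝ g x' y) r x y‖ ≤ _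
  rw [e2, norm_neg]
  have hle : ∀ z, |fderiv ℝ (fun z => fderiv ℝ ψ z (NN r s y u)) z (NN r s y y)| ≤
      ‖fderiv ℝ (fderiv ℝ ψ) z‖ * (‖NN r s y y‖ * ‖NN r s y u‖) := by
    intro z
    have hd : DifferentiableAt ℝ (fderiv ℝ ψ) z := (kerC1 hψ).differentiable (by simp) z
    have h2 : fderiv ℝ (fun z => fderiv ℝ ψ z (NN r s y u)) z (NN r s y y) =
        fderiv ℝ (fderiv ℝ ψ) z (NN r s y y) (NN r s y u) := by
      rw [fderiv_clm_apply hd (differentiableAt_const _)]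
      simp
    rw [h2, ← mul_assoc]
    exact (fderiv ℝ (fderiv ℝ ψ) z).le_opNorm₂ _ _
  have h1 := smoBd (ψ := fun z => fderiv ℝ (fun z => fderiv ℝ ψ z (NN r s y u)) z (NN r s y y)) (g := g)
    ((intFd2 hψ).mul_const (‖NN r s y y‖ * ‖NN r s y u‖)) hs h (kerDir hk1 _).2 hle hB
  refine h1.trans ?_
  rw [integral_mul_const]
  have hy : ‖y‖ ≤ s := le_of_sq_le_sq (by nlinarith [sq_nonneg r]) hs.le
  have n1 := NNle (y := y) hs h u
  have n2 : ‖NN r s y y‖ ≤ 1 := (NNle (y := y) hs h y).trans (by rw [div_le_one hs]; exact hy)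
  have h3 : 0 ≤ ∫ z, ‖fderiv ℝ (fderiv ℝ ψ) z‖ :=
    integral_nonneg fun z => norm_nonneg (fderiv ℝ (fderiv ℝ ψ) z)
  have h4 : ∫ z, ‖fderiv ℝ (fderiv ℝ ψ) z‖ ≤ Aψ ψ := by
    unfold Aψ
    have h5 : 0 ≤ ∫ z, |ψ z| := integral_nonneg fun z => abs_nonneg _
    have h6 : 0 ≤ ∫ z, ‖fderiv ℝ ψ z‖ := integral_nonneg fun z => norm_nonneg (fderiv ℝ ψ z)
    linarith
  have hA := Anonneg ψ
  calc (∫ z, ‖fderiv ℝ (fderiv ℝ ψ) z‖) * (‖NN r s y y‖ * ‖NN r s y u‖) * B
      ≤ Aψ ψ * (1 * (‖u‖ / s)) * B := by gcongr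
    _ = Aψ ψ * B * (‖u‖ / s) := by ring

end bounds

/-! ### the derivative of `Sm` -/

/-- the kernels of the derivative -/
private noncomputable def kij (n : ℕ) (j i : Fin n) : KK n → ℝ := fun z => rho z * z.2 j i

private theorem kijKer (j i : Fin n) : Ker (kij n j i) := kerMul rhoKer j i

private theorem SmEq {g : EE n → WW n} (hg : ContDiff ℝ ∞ g) (r : ℝ) (w : WW n) :
    Sm g r w = smo rho g r w.1 w.2 + JJ (smo rho (fderiv ℝ g) r w.1 w.2 w.2) := by
  unfold Sm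
  rw [smoApply rhoKer (hg.continuous_fderiv (by simp))]

private theorem smoSm (hKA : StKA) {g : EE n → WW n} (hg : ContDiff ℝ ∞ g) :
    ContDiff ℝ ∞ (Function.uncurry (Sm g)) := by
  have hg1 : ContDiff ℝ ∞ (fderiv ℝ g) := hg.fderiv_right (by simp)
  have h1 := (hKA n (WW n) rho g rhoKer.1 rhoKer.2 hg).1
  have h2 := (hKA n (EE n →L[ℝ] WW n) rho (fderiv ℝ g) rhoKer.1 rhoKer.2 hg1).1
  have e : Function.uncurry (Sm g) = fun p : ℝ × WW n => smo rho g p.1 p.2.1 p.2.2 +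
      JJ (smo rho (fderiv ℝ g) p.1 p.2.1 p.2.2 p.2.2) := by
    ext1 p
    exact SmEq hg p.1 p.2
  rw [e]
  exact h1.add (JJ.contDiff.comp (h2.clm_apply (by fun_prop)))

private theorem fdSm (hKA : StKA) {g : EE n → WW n} (hg : ContDiff ℝ ∞ g) (r : ℝ) (x y u v : EE n) :
    fderiv ℝ (Sm g r) (x, y) (u, v) =
      (smo rho (fun x' => fderiv ℝ g x' u) r x y +
        ∑ j, ∑ i, v j • smo (kij n j i) (fun x' => fderiv ℝ g x' (EuclideanSpace.single i 1)) r x y) +
      JJ ((smo rho (fun x' => fderiv ℝ (fderiv ℝ g) x' u y) r x y +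
        ∑ j, ∑ i, v j • smo (kij n j i)
          (fun x' => fderiv ℝ (fderiv ℝ g) x' (EuclideanSpace.single i 1) y) r x y) +
        smo rho (fun x' => fderiv ℝ g x' v) r x y) := by
  have hg1 : ContDiff ℝ ∞ (fderiv ℝ g) := hg.fderiv_right (by simp)
  have hg2 : ContDiff ℝ ∞ (fderiv ℝ (fderiv ℝ g)) := hg1.fderiv_right (by simp)
  have k1 := hKA n (WW n) rho g rhoKer.1 rhoKer.2 hg
  have k2 := hKA n (EE n →L[ℝ] WW n) rho (fderiv ℝ g) rhoKer.1 rhoKer.2 hg1
  have c1 : ContDiff ℝ ∞ (fun w : WW n => smo rho g r w.1 w.2) :=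
    k1.1.comp (contDiff_const.prodMk contDiff_id)
  have c2 : ContDiff ℝ ∞ (fun w : WW n => smo rho (fderiv ℝ g) r w.1 w.2) :=
    k2.1.comp (contDiff_const.prodMk contDiff_id)
  have d1 : DifferentiableAt ℝ (fun w : WW n => smo rho g r w.1 w.2) (x, y) :=
    (c1.differentiable (by simp)).differentiableAt
  have d2 : DifferentiableAt ℝ (fun w : WW n => smo rho (fderiv ℝ g) r w.1 w.2) (x, y) :=
    (c2.differentiable (by simp)).differentiableAt
  have d3 : HasFDerivAt (fun w : WW n => smo rho (fderiv ℝ g) r w.1 w.2 w.2)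
      ((smo rho (fderiv ℝ g) r x y).comp (ContinuousLinearMap.snd ℝ (EE n) (EE n)) +
        (fderiv ℝ (fun w : WW n => smo rho (fderiv ℝ g) r w.1 w.2) (x, y)).flip y) (x, y) :=
    d2.hasFDerivAt.clm_apply hasFDerivAt_snd
  have e : Sm g r = fun w : WW n => smo rho g r w.1 w.2 + JJ (smo rho (fderiv ℝ g) r w.1 w.2 w.2) := by
    ext1 w
    exact SmEq hg r w
  have d4 : HasFDerivAt (Sm g r) (fderiv ℝ (fun w : WW n => smo rho g r w.1 w.2) (x, y) +
      (JJ (n := n)).comp ((smo rho (fderiv ℝ g) r x y).comp (ContinuousLinearMap.snd ℝ (EE n) (EE n)) +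
        (fderiv ℝ (fun w : WW n => smo rho (fderiv ℝ g) r w.1 w.2) (x, y)).flip y)) (x, y) := by
    rw [e]
    exact d1.hasFDerivAt.add ((JJ (n := n)).hasFDerivAt.comp (x, y) d3)
  rw [d4.fderiv]
  have k3 := k1.2 r x y u v
  have k4 := k2.2 r x y u v
  rw [_root_.add_apply, ContinuousLinearMap.comp_apply, _root_.add_apply,
    ContinuousLinearMap.comp_apply, ContinuousLinearMap.flip_apply, k3, k4]
  congr 1
  congr 1
  rw [add_comm]
  congr 1
  · rw [_root_.add_apply, smoApply rhoKer (L := fun x' => fderiv ℝ (fderiv ℝ g) x' u)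
      (hg2.clm_apply contDiff_const).continuous]
    congr 1
    rw [_root_.sum_apply]
    refine Finset.sum_congr rfl fun j _ => ?_
    rw [_root_.sum_apply]
    refine Finset.sum_congr rfl fun i _ => ?_
    rw [_root_.smul_apply,
      smoApply (kijKer j i) (L := fun x' => fderiv ℝ (fderiv ℝ g) x' (EuclideanSpace.single i 1))
      (hg2.clm_apply contDiff_const).continuous]
    rfl
  · exact (smoApply rhoKer hg1.continuous r x y v).symm

private theorem normJJ (a : WW n) : ‖JJ a‖ = ‖a‖ := by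
  rw [JJ_apply, Prod.norm_def, Prod.norm_def, norm_neg, max_comm]

private theorem kijInt (j i : Fin n) : ∫ z, kij n j i z = 0 :=
  oddInt (f := fun z : KK n => z.2 j i) fun z => by simp

private theorem sumBd (F : Fin n → Fin n → WW n) (c : Fin n → Fin n → ℝ) (v : EE n) {M t : ℝ}
    (hv : ‖v‖ ≤ M) (hF : ∀ j i, ‖F j i‖ ≤ c j i * t) :
    ‖∑ j, ∑ i, v j • F j i‖ ≤ (∑ j, ∑ i, c j i) * (M * t) := by
  rw [Finset.sum_mul]
  refine (norm_sum_le _ _).trans (Finset.sum_le_sum fun j _ => ?_)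
  rw [Finset.sum_mul]
  refine (norm_sum_le _ _).trans (Finset.sum_le_sum fun i _ => ?_)
  rw [norm_smul]
  have h1 : ‖v j‖ ≤ M := (PiLp.norm_apply_le v j).trans hv
  calc ‖v j‖ * ‖F j i‖ ≤ M * (c j i * t) :=
        mul_le_mul h1 (hF j i) (norm_nonneg _) ((norm_nonneg _).trans h1)
    _ = c j i * (M * t) := by ring

theorem hKC (hKA : StKA) (hKB : StKB) : StKC := by
  intro n
  have hA := Anonneg (rho (n := n))
  have hK : 0 ≤ ∑ j : Fin n, ∑ i : Fin n, Aψ (kij n j i) :=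
    Finset.sum_nonneg fun j _ => Finset.sum_nonneg fun i _ => Anonneg _
  obtain ⟨K, hKe⟩ : ∃ K : ℝ, K = ∑ j : Fin n, ∑ i : Fin n, Aψ (kij n j i) := ⟨_, rfl⟩
  rw [← hKe] at hK
  refine ⟨(n : ℝ) + 1 + 3 * Aψ (rho (n := n)) + 2 * K, by positivity, ?_, fun g hg => smoSm hKA hg,
    ?_, ?_, ?_, ?_⟩
  · intro g h hg hh r w
    have e : fderiv ℝ (fun x => g x + h x) = fun x => fderiv ℝ g x + fderiv ℝ h x := by
      ext1 x
      exact fderiv_add (hg.differentiable (by simp) x) (hh.differentiable (by simp) x)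
    rw [SmEq (hg.add hh), SmEq hg, SmEq hh, smoAdd rhoKer hg.continuous hh.continuous, e,
      smoAdd rhoKer (hg.continuous_fderiv (by simp)) (hh.continuous_fderiv (by simp)),
      _root_.add_apply, map_add]
    abel
  · intro b T r w
    have e : fderiv ℝ (fun x => b + T x) = fun _ => T := by
      ext1 x
      rw [fderiv_const_add]
      exact T.fderiv
    rw [SmEq (contDiff_const.add T.contDiff), e, smoAff, smoCst]
  · intro g hg x
    rw [SmEq hg, smoZero, rhoInt, one_smul, map_zero, map_zero, add_zero]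
  · intro g hg x a
    have h1 := fdSm hKA hg 0 x 0 a.1 a.2
    simp only [smoZero, rhoInt, kijInt, one_smul, zero_smul, smul_zero, Finset.sum_const_zero, add_zero,
      map_zero, zero_add] at h1
    exact h1
  · intro g hg r w s B hs h hB
    have hB' : ∀ x', ‖x' - w.1‖ ≤ ((n : ℝ) + 1) * s → ‖g x'‖ ≤ B := fun x' hx' =>
      hB x' (hx'.trans (by nlinarith))
    have hB0 : 0 ≤ B := (norm_nonneg _).trans (hB' w.1 (by rw [sub_self, norm_zero]; positivity))
    have hy : ‖w.2‖ ≤ s := le_of_sq_le_sq (by nlinarith [sq_nonneg r]) hs.le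
    constructor
    · unfold Sm
      refine (norm_add_le _ _).trans ?_
      rw [normJJ]
      have b0 := bd0 rhoKer hs h hB'
      have b1 := bd1 hKB rhoKer hg hs h hB' w.2
      have h2 : ‖w.2‖ / s ≤ 1 := by rw [div_le_one hs]; exact hy
      have h3 : Aψ (rho (n := n)) * B * (‖w.2‖ / s) ≤ Aψ (rho (n := n)) * B :=
        mul_le_of_le_one_right (by positivity) h2
      have h4 : 0 ≤ (n : ℝ) * B := by positivity
      have h5 : 0 ≤ Aψ (rho (n := n)) * B := by positivity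
      have h6 : 0 ≤ K * B := by positivity
      nlinarith
    · intro a
      have h1 := fdSm hKA hg r w.1 w.2 a.1 a.2
      have ha1 : ‖a.1‖ ≤ ‖a‖ := norm_fst_le a
      have ha2 : ‖a.2‖ ≤ ‖a‖ := norm_snd_le a
      have hsi : ∀ i : Fin n, ‖(EuclideanSpace.single i (1 : ℝ) : EE n)‖ = 1 := fun i => by simp
      have t : ∀ u : EE n, ‖u‖ ≤ ‖a‖ → Aψ (rho (n := n)) * B * (‖u‖ / s) ≤
          Aψ (rho (n := n)) * (B / s * ‖a‖) := by
        intro u hu
        calc Aψ (rho (n := n)) * B * (‖u‖ / s) ≤ Aψ (rho (n := n)) * B * (‖a‖ / s) := by gcongr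
          _ = _ := by ring
      have m1 := (bd1 hKB rhoKer hg hs h hB' a.1).trans (t _ ha1)
      have m2 := sumBd (fun j i => smo (kij n j i) (fun x' => fderiv ℝ g x' (EuclideanSpace.single i 1))
        r w.1 w.2) (fun j i => Aψ (kij n j i)) a.2 (t := B / s) ha2 fun j i => by
          have := bd1 hKB (kijKer j i) hg hs h hB' (EuclideanSpace.single i 1)
          rw [hsi, mul_one_div, mul_div_assoc] at this
          exact this
      have m3 := (bd2 hKB rhoKer hg hs h hB' a.1).trans (t _ ha1)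
      have m4 := sumBd (fun j i => smo (kij n j i)
        (fun x' => fderiv ℝ (fderiv ℝ g) x' (EuclideanSpace.single i 1) w.2)
        r w.1 w.2) (fun j i => Aψ (kij n j i)) a.2 (t := B / s) ha2 fun j i => by
          have := bd2 hKB (kijKer j i) hg hs h hB' (EuclideanSpace.single i 1)
          rw [hsi, mul_one_div, mul_div_assoc] at this
          exact this
      have m5 := (bd1 hKB rhoKer hg hs h hB' a.2).trans (t _ ha2)
      rw [← hKe] at m2 m4
      have h2 : ‖fderiv ℝ (Sm g r) w a‖ ≤ (Aψ (rho (n := n)) * (B / s * ‖a‖) + K * (‖a‖ * (B / s))) +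
          ((Aψ (rho (n := n)) * (B / s * ‖a‖) + K * (‖a‖ * (B / s))) +
            Aψ (rho (n := n)) * (B / s * ‖a‖)) := by
        refine (congrArg norm h1).le.trans ?_
        refine (norm_add_le _ _).trans (add_le_add ((norm_add_le _ _).trans (add_le_add m1 m2)) ?_)
        rw [normJJ]
        exact (norm_add_le _ _).trans (add_le_add ((norm_add_le _ _).trans (add_le_add m3 m4)) m5)
      refine h2.trans ?_
      have h3 : 0 ≤ (n + 1 : ℝ) * (B / s * ‖a‖) := by positivity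
      nlinarith

end Pool.Agent.Helper78.LK
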